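import Mathlib

/-!
Steps (3) and (4) of THEOREM HASSE (note 3199 of helper42), in abstract form: a function `κ` on a
finite elementary abelian 2-group `L` such that all products `ψ ↦ κ ψ * κ (ψ + χ)` are positive
definite has a spectrum closed under addition (9S); if `κ ψ` counts the `v` with `ψ ∈ K v`, the
subgroups `K v` have trivial intersection and `M + K v = L` for all `v`, then `M = L`.
-/

set_option autoImplicit false
set_option linter.unusedSectionVars false

namespace Pool.Agent.HAS87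

open Finset

/-- The sign of an element of `ZMod 2`. -/
noncomputable def sg (a : ZMod 2) : ℝ := if a = 0 then 1 else -1

lemma sg_zero : sg 0 = 1 := if_pos rfl

lemma zmod2_cases (a : ZMod 2) : a = 0 ∨ a = 1 := by
  revert a; decide

lemma sg_one : sg 1 = -1 := by
  unfold sg
  rw [if_neg (by decide)]

lemma sg_add (a b : ZMod 2) : sg (a + b) = sg a * sg b := by
  rcases zmod2_cases a with rfl | rfl <;> rcases zmod2_cases b with rfl | rfl
  · rw [add_zero, sg_zero, mul_one]
  · rw [zero_add, sg_zero, sg_one, one_mul]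
  · rw [add_zero, sg_zero, sg_one, mul_one]
  · have : (1 : ZMod 2) + 1 = 0 := by decide
    rw [this, sg_zero, sg_one]; norm_num

lemma sg_sq (a : ZMod 2) : sg a * sg a = 1 := by
  rcases zmod2_cases a with rfl | rfl
  · rw [sg_zero]; norm_num
  · rw [sg_one]; norm_num

lemma sg_le_one (a : ZMod 2) : sg a ≤ 1 := by
  rcases zmod2_cases a with rfl | rfl
  · rw [sg_zero]
  · rw [sg_one]; norm_num

section

variable {L : Type} [AddCommGroup L] [Module (ZMod 2) L] [Fintype L]

/-- The Fourier transform. -/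
noncomputable def khat (κ : L → ℝ) (a : Module.Dual (ZMod 2) L) : ℝ := ∑ ψ, κ ψ * sg (a ψ)

/-- Positive definite functions, by their Fourier transform. -/
def PD (F : L → ℝ) : Prop := ∀ a : Module.Dual (ZMod 2) L, 0 ≤ ∑ ψ, F ψ * sg (a ψ)

lemma add_self' (x : L) : x + x = 0 := by
  have h : (2 : ZMod 2) • x = 0 := by
    have : (2 : ZMod 2) = 0 := by decide
    rw [this, zero_smul]
  rwa [two_smul] at h

/-- (9S): if all `κ · κ(· + χ)` are positive definite, then `κ^(b) κ^(c) ≤ κ^(0) κ^(b+c)`. -/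
theorem nineS (κ : L → ℝ) (h : ∀ χ : L, PD (fun ψ => κ ψ * κ (ψ + χ)))
    (b c : Module.Dual (ZMod 2) L) : khat κ b * khat κ c ≤ khat κ 0 * khat κ (b + c) := by
  have key : ∀ b c : Module.Dual (ZMod 2) L,
      ∑ χ, (∑ ψ, κ ψ * κ (ψ + χ) * sg ((b + c) ψ)) * sg (b χ) = khat κ b * khat κ c := by
    intro b c
    calc ∑ χ, (∑ ψ, κ ψ * κ (ψ + χ) * sg ((b + c) ψ)) * sg (b χ)
        = ∑ ψ, ∑ χ, κ ψ * κ (ψ + χ) * sg ((b + c) ψ) * sg (b χ) := by
          rw [sum_comm]
          refine sum_congr rfl (fun χ _ => ?_)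
          rw [sum_mul]
      _ = ∑ ψ, ∑ χ', κ ψ * κ χ' * sg ((b + c) ψ) * sg (b (χ' + ψ)) := by
          refine sum_congr rfl (fun ψ _ => ?_)
          refine Fintype.sum_equiv (Equiv.addLeft ψ) _ _ (fun χ => ?_)
          simp only [Equiv.coe_addLeft]
          have : ψ + χ + ψ = χ := by
            rw [add_comm ψ χ, add_assoc, add_self', add_zero]
          rw [this]
      _ = ∑ ψ, ∑ χ', (κ ψ * sg (c ψ)) * (κ χ' * sg (b χ')) := by
          refine sum_congr rfl (fun ψ _ => sum_congr rfl (fun χ' _ => ?_))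
          rw [map_add, sg_add, LinearMap.add_apply, sg_add]
          have := sg_sq (b ψ)
          linear_combination (κ ψ * κ χ' * sg (c ψ) * sg (b χ')) * this
      _ = khat κ b * khat κ c := by
          unfold khat
          rw [mul_comm, sum_mul_sum]
  have h1 := key b c
  have h2 := key 0 (b + c)
  rw [← h1, ← h2]
  refine sum_le_sum (fun χ _ => ?_)
  have h3 := h χ (b + c)
  have h4 : sg ((0 : Module.Dual (ZMod 2) L) χ) = 1 := by
    rw [LinearMap.zero_apply, sg_zero]
  rw [h4, mul_one, zero_add]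
  have h5 := sg_le_one (b χ)
  simp only at h3
  nlinarith

open Classical in
/-- The indicator of a subgroup. -/
noncomputable def ind (N : Submodule (ZMod 2) L) (ψ : L) : ℝ := if ψ ∈ N then 1 else 0

lemma ind_mem {N : Submodule (ZMod 2) L} {ψ : L} (h : ψ ∈ N) : ind N ψ = 1 := if_pos h

lemma ind_not {N : Submodule (ZMod 2) L} {ψ : L} (h : ψ ∉ N) : ind N ψ = 0 := if_neg h

lemma ind_nonneg (N : Submodule (ZMod 2) L) (ψ : L) : 0 ≤ ind N ψ := by
  by_cases h : ψ ∈ N
  · rw [ind_mem h]; norm_num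
  · rw [ind_not h]

lemma ind_add (N : Submodule (ZMod 2) L) {t : L} (ht : t ∈ N) (ψ : L) :
    ind N (t + ψ) = ind N ψ := by
  by_cases h : ψ ∈ N
  · rw [ind_mem h, ind_mem (N.add_mem ht h)]
  · rw [ind_not h, ind_not]
    intro h'
    exact h ((N.add_mem_iff_right ht).1 h')

/-- the product of two indicators -/
lemma ind_inf (N N' : Submodule (ZMod 2) L) (ψ : L) : ind N ψ * ind N' ψ = ind (N ⊓ N') ψ := by
  by_cases h : ψ ∈ N
  · by_cases h' : ψ ∈ N'
    · rw [ind_mem h, ind_mem h', ind_mem (Submodule.mem_inf.2 ⟨h, h'⟩), one_mul]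
    · rw [ind_not h', mul_zero, ind_not (fun hh => h' (Submodule.mem_inf.1 hh).2)]
  · rw [ind_not h, zero_mul, ind_not (fun hh => h (Submodule.mem_inf.1 hh).1)]

/-- The character sum over a subgroup vanishes if the character is not trivial on it. -/
lemma sum_ind_eq_zero (N : Submodule (ZMod 2) L) (a : Module.Dual (ZMod 2) L) {t : L}
    (htN : t ∈ N) (ht : a t ≠ 0) : ∑ ψ, ind N ψ * sg (a ψ) = 0 := by
  have ht1 : a t = 1 := by
    rcases zmod2_cases (a t) with h0 | h0
    · exact absurd h0 ht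
    · exact h0
  have e : ∑ ψ, ind N (t + ψ) * sg (a (t + ψ)) = ∑ ψ, ind N ψ * sg (a ψ) :=
    Fintype.sum_equiv (Equiv.addLeft t) _ _ (fun ψ => rfl)
  have e2 : ∑ ψ, ind N (t + ψ) * sg (a (t + ψ)) = - ∑ ψ, ind N ψ * sg (a ψ) := by
    rw [← sum_neg_distrib]
    refine sum_congr rfl (fun ψ _ => ?_)
    rw [ind_add N htN, map_add, sg_add, ht1, sg_one]
    ring
  linarith

lemma sum_ind_nonneg (N : Submodule (ZMod 2) L) (a : Module.Dual (ZMod 2) L) :
    0 ≤ ∑ ψ, ind N ψ * sg (a ψ) := by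
  by_cases h : ∀ ψ ∈ N, a ψ = 0
  · refine sum_nonneg (fun ψ _ => ?_)
    by_cases hψ : ψ ∈ N
    · rw [ind_mem hψ, h ψ hψ, sg_zero]; norm_num
    · rw [ind_not hψ, zero_mul]
  · push Not at h
    obtain ⟨t, htN, ht⟩ := h
    rw [sum_ind_eq_zero N a htN ht]

lemma sum_ind_pos (N : Submodule (ZMod 2) L) (a : Module.Dual (ZMod 2) L)
    (h : ∀ ψ ∈ N, a ψ = 0) : 0 < ∑ ψ, ind N ψ * sg (a ψ) := by
  have h0 : ∀ ψ ∈ (univ : Finset L), 0 ≤ ind N ψ * sg (a ψ) := by
    intro ψ _
    by_cases hψ : ψ ∈ N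
    · rw [ind_mem hψ, h ψ hψ, sg_zero]; norm_num
    · rw [ind_not hψ, zero_mul]
  refine lt_of_lt_of_le ?_ (single_le_sum h0 (mem_univ (0 : L)))
  rw [map_zero, sg_zero, mul_one, ind_mem N.zero_mem]
  norm_num

/-- A sum of indicators of subgroups is positive definite. -/
lemma pd_of_sum {ι : Type} [Fintype ι] (N : ι → Submodule (ZMod 2) L) (F : L → ℝ)
    (hF : ∀ ψ, F ψ = ∑ i, ind (N i) ψ) : PD F := by
  intro a
  have e : ∑ ψ, F ψ * sg (a ψ) = ∑ i, ∑ ψ, ind (N i) ψ * sg (a ψ) := by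
    rw [sum_comm]
    refine sum_congr rfl (fun ψ _ => ?_)
    rw [hF, sum_mul]
  rw [e]
  exact sum_nonneg (fun i _ => sum_ind_nonneg (N i) a)

/-- A product of two sums of indicators of subgroups is positive definite. -/
lemma pd_of_mul {ι ι' : Type} [Fintype ι] [Fintype ι'] (N : ι → Submodule (ZMod 2) L)
    (N' : ι' → Submodule (ZMod 2) L) (F : L → ℝ)
    (hF : ∀ ψ, F ψ = (∑ i, ind (N i) ψ) * ∑ j, ind (N' j) ψ) : PD F := by
  refine pd_of_sum (fun p : ι × ι' => N p.1 ⊓ N' p.2) F (fun ψ => ?_)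
  rw [hF, sum_mul_sum, ← univ_product_univ, sum_product]
  refine sum_congr rfl (fun i _ => sum_congr rfl (fun j _ => ?_))
  rw [ind_inf]

end

section final

variable {L V : Type} [AddCommGroup L] [Module (ZMod 2) L] [Fintype L] [Fintype V]

/-- The number of `v` with `ψ ∈ K v`. -/
noncomputable def cnt (K : V → Submodule (ZMod 2) L) (ψ : L) : ℝ := ∑ v, ind (K v) ψ

open Classical in
lemma cnt_eq (K : V → Submodule (ZMod 2) L) (ψ : L) :
    cnt K ψ = ((univ.filter (fun v => ψ ∈ K v)).card : ℝ) := by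
  unfold cnt ind
  rw [sum_boole]

lemma khat_cnt (K : V → Submodule (ZMod 2) L) (a : Module.Dual (ZMod 2) L) :
    khat (cnt K) a = ∑ v, ∑ ψ, ind (K v) ψ * sg (a ψ) := by
  unfold khat cnt
  rw [sum_comm]
  refine sum_congr rfl (fun ψ _ => ?_)
  rw [sum_mul]

lemma khat_cnt_nonneg (K : V → Submodule (ZMod 2) L) (a : Module.Dual (ZMod 2) L) :
    0 ≤ khat (cnt K) a := by
  rw [khat_cnt]
  exact sum_nonneg (fun v _ => sum_ind_nonneg (K v) a)

/-- a character in the spectrum is trivial on some `K v` -/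
lemma exists_of_khat_ne {K : V → Submodule (ZMod 2) L} {a : Module.Dual (ZMod 2) L}
    (h : khat (cnt K) a ≠ 0) : ∃ v, ∀ ψ ∈ K v, a ψ = 0 := by
  by_contra hcon
  push Not at hcon
  apply h
  rw [khat_cnt]
  refine sum_eq_zero (fun v _ => ?_)
  obtain ⟨t, htN, ht⟩ := hcon v
  exact sum_ind_eq_zero (K v) a htN ht

/-- a character which is trivial on some `K v` is in the spectrum -/
lemma khat_pos_of_triv {K : V → Submodule (ZMod 2) L} {a : Module.Dual (ZMod 2) L} {v : V}
    (h : ∀ ψ ∈ K v, a ψ = 0) : 0 < khat (cnt K) a := by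
  rw [khat_cnt]
  exact lt_of_lt_of_le (sum_ind_pos (K v) a h)
    (single_le_sum (fun w _ => sum_ind_nonneg (K w) a) (mem_univ v))

/-- The spectrum, as a subspace of the dual. -/
noncomputable def spec (K : V → Submodule (ZMod 2) L) [Nonempty V]
    (h : ∀ χ : L, PD (fun ψ => cnt K ψ * cnt K (ψ + χ))) :
    Submodule (ZMod 2) (Module.Dual (ZMod 2) L) where
  carrier := {a | khat (cnt K) a ≠ 0}
  zero_mem' := by
    obtain ⟨v⟩ := (inferInstance : Nonempty V)
    exact (khat_pos_of_triv (K := K) (a := 0) (v := v) (fun ψ _ => rfl)).ne'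
  add_mem' := by
    intro a b ha hb
    obtain ⟨v⟩ := (inferInstance : Nonempty V)
    have h1 := nineS (cnt K) h a b
    have h2 : 0 < khat (cnt K) a := lt_of_le_of_ne (khat_cnt_nonneg K a) (Ne.symm ha)
    have h3 : 0 < khat (cnt K) b := lt_of_le_of_ne (khat_cnt_nonneg K b) (Ne.symm hb)
    intro h5
    rw [h5, mul_zero] at h1
    have := mul_pos h2 h3
    linarith
  smul_mem' := by
    intro c a ha
    rcases zmod2_cases c with rfl | rfl
    · rw [zero_smul]
      obtain ⟨v⟩ := (inferInstance : Nonempty V)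
      exact (khat_pos_of_triv (K := K) (a := 0) (v := v) (fun ψ _ => rfl)).ne'
    · rw [one_smul]; exact ha

lemma mem_spec {K : V → Submodule (ZMod 2) L} [Nonempty V]
    {h : ∀ χ : L, PD (fun ψ => cnt K ψ * cnt K (ψ + χ))} {a : Module.Dual (ZMod 2) L} :
    a ∈ spec K h ↔ khat (cnt K) a ≠ 0 := Iff.rfl

/-- The spectrum is everything if only `0` is in all `K v`. -/
theorem spec_eq_top (K : V → Submodule (ZMod 2) L) [Nonempty V]
    (h : ∀ χ : L, PD (fun ψ => cnt K ψ * cnt K (ψ + χ)))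
    (hrad : ∀ ψ, (∀ v, ψ ∈ K v) → ψ = 0) : spec K h = ⊤ := by
  have : FiniteDimensional (ZMod 2) L := Module.Finite.of_finite
  have h1 : (spec K h).dualCoannihilator = ⊥ := by
    rw [eq_bot_iff]
    intro ψ hψ
    rw [Submodule.mem_bot]
    apply hrad
    intro v
    rw [← Subspace.dualAnnihilator_dualCoannihilator_eq (W := K v)]
    rw [Submodule.mem_dualCoannihilator] at hψ ⊢
    intro a ha
    apply hψ
    rw [mem_spec]
    rw [Submodule.mem_dualAnnihilator] at ha
    exact (khat_pos_of_triv ha).ne'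
  have h2 := Subspace.dualCoannihilator_dualAnnihilator_eq (W := spec K h)
  rw [h1, Submodule.dualAnnihilator_bot] at h2
  exact h2.symm

/-- **Steps (3), (4) of THEOREM HASSE**: if `κ ψ = #{v : ψ ∈ K v}` is such that all
`ψ ↦ κ ψ * κ (ψ + χ)` are positive definite, the intersection of all `K v` is `0`, and
`M + K v = L` for every `v`, then `M = L`. -/
theorem eq_top_of_pd (K : V → Submodule (ZMod 2) L) [Nonempty V]
    (h : ∀ χ : L, PD (fun ψ => cnt K ψ * cnt K (ψ + χ)))
    (hrad : ∀ ψ, (∀ v, ψ ∈ K v) → ψ = 0) (M : Submodule (ZMod 2) L)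
    (hM : ∀ v ψ, ∃ t ∈ M, ψ + t ∈ K v) : M = ⊤ := by
  have h1 : M.dualAnnihilator = ⊥ := by
    rw [eq_bot_iff]
    intro a ha
    rw [Submodule.mem_bot]
    rw [Submodule.mem_dualAnnihilator] at ha
    have h2 : a ∈ spec K h := by
      rw [spec_eq_top K h hrad]
      trivial
    obtain ⟨v, hv⟩ := exists_of_khat_ne (mem_spec.1 h2)
    refine LinearMap.ext (fun ψ => ?_)
    obtain ⟨t, ht, hψt⟩ := hM v ψ
    have h3 := hv _ hψt
    rw [map_add, ha t ht, add_zero] at h3
    rw [h3, LinearMap.zero_apply]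
  rw [← Subspace.dualAnnihilator_dualCoannihilator_eq (W := M), h1,
    Submodule.dualCoannihilator_bot]

end final

end Pool.Agent.HAS87
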